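import Mathlib
import Pool.Agent.R365.AK.AffExc
import Pool.Agent.Results.MP_2a5a28_nt.AlmostAllTriples

/-!
# The exceptional triples over `ℤ[(1 + √5) / 2]` at every level
-/

set_option autoImplicit false

namespace Pool.Agent.Results.MP_2a5a28_nt.ExceptionsAtEveryLevel

open NumberField IsDedekindDomain
open Pool.Agent.Results.MP_2a5a28_nt.AlmostAllTriples (Triple height rad Ineq rad_eq hgt_eq
  one_le_rad height_pos card_image exists_triple Triple.tr)

variable {K : Type} [Field K] [NumberField K]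

/-- the triple `t` in lowest terms has height `H ≤ X` and radical at most `κ H ^ lam` -/
def Exceptional (κ lam X : ℝ) (t : 𝓞 K × 𝓞 K × 𝓞 K) : Prop :=
  Triple t ∧ height t ≤ X ∧ rad t ≤ κ * height t ^ lam

/-- the exponent, a continuous piecewise linear function on `(0, 3]` -/
noncomputable def F (t : ℝ) : ℝ :=
  if t ≤ 7 / 15 then 4 * t / 7
  else if t ≤ 1 then (19 * t + 1) / 37
  else if t ≤ 9 / 7 then 5 * (9 * t - 1) / 74
  else if t ≤ 3 / 2 then 5 * t / 9
  else if t ≤ 5 / 3 then t - 2 / 3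
  else if t ≤ 2 then 1
  else t - 1

open Pool.Agent.TH402.AK Pool.Agent.TH876.Loc in
/-- the condition, in terms of the point -/
theorem exc_iff {κ lam X : ℝ} (hκ : 0 < κ) (hX : 0 < X) {t : 𝓞 K × 𝓞 K × 𝓞 K}
    (h : Triple t) : Exceptional κ lam X t ↔ (hgt (pt t.1 t.2.1) ≤ Real.log X ∧
      Real.log (nn (sp (pt t.1 t.2.1))) ≤ lam * hgt (pt t.1 t.2.1) + Real.log κ) := by
  have hs0 : 0 < height t := height_pos h
  have hr : 0 < rad t := by linarith [one_le_rad h]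
  rw [← rad_eq h, ← hgt_eq h]
  have e3 : height t ≤ X ↔ Real.log (height t) ≤ Real.log X :=
    (Real.log_le_log_iff hs0 hX).symm
  have e4 : rad t ≤ κ * height t ^ lam ↔
      Real.log (rad t) ≤ Real.log κ + lam * Real.log (height t) := by
    rw [← Real.log_le_log_iff hr (mul_pos hκ (Real.rpow_pos_of_pos hs0 _)),
      Real.log_mul hκ.ne' (Real.rpow_pos_of_pos hs0 _).ne', Real.log_rpow hs0]
  unfold Exceptional
  rw [e3, e4]
  constructor
  · rintro ⟨_, h5, h6⟩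
    constructor <;> linarith
  · rintro ⟨h5, h6⟩
    refine ⟨h, ?_, ?_⟩ <;> linarith

open Classical in
/-- Let `K = ℚ(√5)`, `κ > 0` and `0 < lam ≤ 3`; `𝓞 K = ℤ[(1 + √5) / 2]`. For `ε > 0` there is `C` such
that, for `X ≥ 1`, any set of triples `a + b + c = 0` in lowest terms, no two of them differing by a
unit, with height `H ≤ X` and `rad ≤ κ H ^ lam`, has at most `C X ^ (F(lam) + ε)` elements. For
`lam > 1` there are `c₁ > 0` and `X₀` such that, for `X ≥ X₀`, there is such a set with at least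
`c₁ X ^ (lam - 1)` elements; note `F(lam) = lam - 1` for `2 ≤ lam ≤ 3`. -/
theorem result : ∀ (K : Type) [Field K] [NumberField K], Module.finrank ℚ K = 2 →
    (∃ s : K, s ^ 2 = 5) → ∀ κ lam : ℝ, 0 < κ → 0 < lam → lam ≤ 3 →
    (∀ ε : ℝ, 0 < ε → ∃ C : ℝ, ∀ X : ℝ, 1 ≤ X → ∀ E : Finset (𝓞 K × 𝓞 K × 𝓞 K),
      (∀ t ∈ E, Exceptional κ lam X t) → Ineq E → (E.card : ℝ) ≤ C * X ^ (F lam + ε)) ∧
    (1 < lam → ∃ c₁ X₀ : ℝ, 0 < c₁ ∧ ∀ X : ℝ, X₀ ≤ X → ∃ E : Finset (𝓞 K × 𝓞 K × 𝓞 K),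
      (∀ t ∈ E, Exceptional κ lam X t) ∧ Ineq E ∧ c₁ * X ^ (lam - 1) ≤ (E.card : ℝ)) := by
  intro K _ _ hK h5 κ lam hκ h0 h3
  refine ⟨fun ε hε => ?_, fun h1 => ?_⟩
  · obtain ⟨C, hC, h⟩ := Pool.Agent.R365.AK.affExc K lam (Real.log κ) ε h0 h3 hε
    refine ⟨C, fun X hX E hE hun => ?_⟩
    have hX0 : 0 < X := by linarith
    have h1 := h (Real.log X) (Real.log_nonneg hX)
      (E.image fun t => Pool.Agent.TH402.AK.pt t.1 t.2.1) (by
      intro x hx
      rw [Finset.mem_image] at hx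
      obtain ⟨t, ht, rfl⟩ := hx
      have h2 := hE t ht
      exact ⟨h2.1.tr.tri.pt, (exc_iff hκ hX0 h2.1).1 h2⟩)
    rw [card_image (fun t ht => (hE t ht).1) hun] at h1
    refine h1.trans (le_of_eq ?_)
    rw [Real.rpow_def_of_pos hX0, mul_comm (Real.log X)]
    rfl
  · obtain ⟨c, Z₀, hc, hZ₀, h⟩ := Pool.Agent.R365.AK.affLow K lam (Real.log κ) h1 h3
    refine ⟨c, Real.exp Z₀, hc, fun X hX => ?_⟩
    have hX1 : 1 ≤ X := (Real.one_le_exp hZ₀).trans hX
    have hX0 : 0 < X := by linarith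
    obtain ⟨G, hG, hcard⟩ := h (Real.log X) ((Real.le_log_iff_exp_le hX0).2 hX)
    have hex : ∀ x : K, ∃ t : 𝓞 K × 𝓞 K × 𝓞 K, x ∈ G →
        (Triple t ∧ Pool.Agent.TH402.AK.pt t.1 t.2.1 = x) := by
      intro x
      by_cases hx : x ∈ G
      · obtain ⟨t, ht⟩ := exists_triple hK h5 (hG x hx).1
        exact ⟨t, fun _ => ht⟩
      · exact ⟨0, fun h' => absurd h' hx⟩
    choose f hf using hex
    have hinj : Set.InjOn f (G : Set K) := by
      intro x hx y hy hxy
      rw [← (hf x hx).2, ← (hf y hy).2, hxy]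
    refine ⟨G.image f, ?_, ?_, ?_⟩
    · intro t ht
      obtain ⟨x, hx, rfl⟩ := Finset.mem_image.1 ht
      obtain ⟨g1, g2⟩ := hf x hx
      rw [exc_iff hκ hX0 g1, g2]
      exact (hG x hx).2
    · intro t ht s hs u hu
      obtain ⟨x, hx, rfl⟩ := Finset.mem_image.1 ht
      obtain ⟨y, hy, rfl⟩ := Finset.mem_image.1 hs
      have h1 := hf x hx
      have h2 := hf y hy
      have h3 : Pool.Agent.TH402.AK.pt (f y).1 (f y).2.1 =
          Pool.Agent.TH402.AK.pt (f x).1 (f x).2.1 := by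
        rw [hu]
        unfold Pool.Agent.TH402.AK.pt
        have hb := Pool.Agent.TH402.AK.coe_ne h1.1.tr.tri.b0
        have hu0 : ((u : 𝓞 K) : K) ≠ 0 := Pool.Agent.TH402.AK.coe_ne u.ne_zero
        push_cast
        field_simp
      rw [h1.2, h2.2] at h3
      rw [h3]
    · rw [Finset.card_image_of_injOn hinj]
      refine le_trans (le_of_eq ?_) hcard
      rw [Real.rpow_def_of_pos hX0, mul_comm (Real.log X)]

end Pool.Agent.Results.MP_2a5a28_nt.ExceptionsAtEveryLevel
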