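import Mathlib
import Pool.Agent.R365.SH.Aff
import Pool.Agent.Results.MP_2a5a28_nt.AlmostAllTriples

/-!
# Triples over `ℤ[(1 + √5) / 2]` ordered by their radical: the sharp count and the tails

The triples `a + b + c = 0` in lowest terms of integers of `ℚ(√5)`, up to units, are ordered by their
radical; there is no restriction on their heights.
-/

set_option autoImplicit false

namespace Pool.Agent.Results.MP_2a5a28_nt.SharpCount

open NumberField IsDedekindDomain Filter Topology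
open Pool.Agent.Results.MP_2a5a28_nt.AlmostAllTriples (Triple height rad Reps Ineq rad_eq hgt_eq
  one_le_rad height_pos card_image exists_triple card_le_reps exists_reps Triple.tr)

variable {K : Type} [Field K] [NumberField K]

/-- the members of `E` with `H(a, b, c) ^ 3 ≥ t rad(a, b, c)` -/
def Exceptions (t : ℝ) (E : Finset (𝓞 K × 𝓞 K × 𝓞 K)) : Set (𝓞 K × 𝓞 K × 𝓞 K) :=
  {s | s ∈ E ∧ t * rad s ≤ height s ^ 3}

open Pool.Agent.TH402.AK Pool.Agent.TH876.Loc in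
theorem upper (K : Type) [Field K] [NumberField K] : ∃ C : ℝ, 0 < C ∧
    ∀ X : ℝ, 1 ≤ X → ∀ E : Finset (𝓞 K × 𝓞 K × 𝓞 K), Ineq E →
      (∀ t ∈ E, Triple t ∧ rad t ≤ X) → (E.card : ℝ) ≤ C * X ^ (2 / 3 : ℝ) := by
  classical
  obtain ⟨C, hC, h⟩ := Pool.Agent.R365.SH.aff_upper K
  refine ⟨C, hC, fun X hX E hun hE => ?_⟩
  have h1 := h X hX (E.image fun t => pt t.1 t.2.1) (by
    intro x hx
    rw [Finset.mem_image] at hx
    obtain ⟨t, ht, rfl⟩ := hx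
    obtain ⟨h1, h2⟩ := hE t ht
    exact ⟨h1.tr.tri.pt, by rw [← rad_eq h1]; exact h2⟩)
  rwa [card_image (fun t ht => (hE t ht).1) hun] at h1

open Pool.Agent.TH402.AK Pool.Agent.TH876.Loc in
theorem tail (K : Type) [Field K] [NumberField K] (c : ℝ) (hc0 : 0 ≤ c) (hc1 : c < 1 / 3) :
    ∃ C ν : ℝ, 0 < C ∧ 0 < ν ∧ ∀ X t : ℝ, 1 ≤ X → 1 ≤ t →
      ∀ E : Finset (𝓞 K × 𝓞 K × 𝓞 K), Ineq E →
      (∀ s ∈ E, Triple s ∧ rad s ≤ X ∧ t * rad s ≤ height s ^ 3) →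
      (E.card : ℝ) ≤ C * (t ^ (-c) + X ^ (-ν)) * X ^ (2 / 3 : ℝ) := by
  classical
  obtain ⟨C, ν, hC, hν, h⟩ := Pool.Agent.R365.SH.aff_tail K c hc0 hc1
  refine ⟨C, ν, hC, hν, fun X t hX ht E hun hE => ?_⟩
  have ht0 : 0 < t := by linarith
  have h1 := h X (Real.log t) hX (Real.log_nonneg ht) (E.image fun t => pt t.1 t.2.1) (by
    intro x hx
    rw [Finset.mem_image] at hx
    obtain ⟨s, hs, rfl⟩ := hx
    obtain ⟨h1, h2, h3⟩ := hE s hs
    refine ⟨h1.tr.tri.pt, by rw [← rad_eq h1]; exact h2, ?_⟩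
    rw [← rad_eq h1, ← hgt_eq h1]
    have h4 : 0 < rad s := lt_of_lt_of_le one_pos (one_le_rad h1)
    have h5 := Real.log_le_log (mul_pos ht0 h4) h3
    rw [Real.log_mul ht0.ne' h4.ne', Real.log_pow] at h5
    push_cast at h5
    linarith)
  rw [card_image (fun t ht => (hE t ht).1) hun] at h1
  have h5 : Real.exp (-(c * Real.log t)) = t ^ (-c) := by
    rw [Real.rpow_def_of_pos ht0]
    congr 1
    ring
  rwa [h5] at h1

open Pool.Agent.TH402.AK Pool.Agent.TH876.Loc in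
theorem lower (hK : Module.finrank ℚ K = 2) (h5 : ∃ s : K, s ^ 2 = 5) :
    ∃ c X0 : ℝ, 0 < c ∧ ∀ X : ℝ, X0 ≤ X → ∃ E : Finset (𝓞 K × 𝓞 K × 𝓞 K), Ineq E ∧
      (∀ t ∈ E, Triple t ∧ rad t ≤ X) ∧ c * X ^ (2 / 3 : ℝ) ≤ (E.card : ℝ) := by
  classical
  obtain ⟨c, X0, hc, h⟩ := Pool.Agent.R365.SH.aff_lower K
  refine ⟨c, X0, hc, fun X hX => ?_⟩
  obtain ⟨F, hF, hcard⟩ := h X hX
  have hex : ∀ x : K, ∃ t : 𝓞 K × 𝓞 K × 𝓞 K, Pt x → (Triple t ∧ pt t.1 t.2.1 = x) := by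
    intro x
    by_cases hx : Pt x
    · obtain ⟨t, ht⟩ := exists_triple hK h5 hx
      exact ⟨t, fun _ => ht⟩
    · exact ⟨0, fun h' => absurd h' hx⟩
  choose f hf using hex
  have hinj : Set.InjOn f (F : Set K) := by
    intro x hx y hy hxy
    rw [← (hf x (hF x hx).1).2, ← (hf y (hF y hy).1).2, hxy]
  refine ⟨F.image f, ?_, ?_, ?_⟩
  · intro t ht s hs u hu
    obtain ⟨x, hx, rfl⟩ := Finset.mem_image.1 ht
    obtain ⟨y, hy, rfl⟩ := Finset.mem_image.1 hs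
    have h1 := (hf x (hF x hx).1)
    have h2 := (hf y (hF y hy).1)
    have h3 : pt (f y).1 (f y).2.1 = pt (f x).1 (f x).2.1 := by
      rw [hu]
      unfold pt
      have hb := coe_ne h1.1.tr.tri.b0
      have hu0 : ((u : 𝓞 K) : K) ≠ 0 := coe_ne u.ne_zero
      push_cast
      field_simp
    rw [h1.2, h2.2] at h3
    rw [h3]
  · intro t ht
    obtain ⟨x, hx, rfl⟩ := Finset.mem_image.1 ht
    have h1 := (hf x (hF x hx).1)
    refine ⟨h1.1, ?_⟩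
    rw [rad_eq h1.1, h1.2]
    exact (hF x hx).2
  · rw [Finset.card_image_of_injOn hinj]
    exact hcard

open Classical in
/-- **The triples over `ℤ[(1 + √5) / 2]` by their radical.** Let `K = ℚ(√5)`. Up to units there are,
for each `X ≥ 1`, only finitely many triples `a + b + c = 0`, `abc ≠ 0`, in lowest terms with
`rad ≤ X`, of whatever height; let `E` be a full set of representatives.
(1) `c₁ X ^ (2 / 3) ≤ #E ≤ c₂ X ^ (2 / 3)` for large `X`, with `c₁ > 0`.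
(2) For every `c < 1 / 3` there are `C` and `ν > 0` such that for all `X, t ≥ 1` at most
`C (t ^ (-c) + X ^ (-ν)) X ^ (2 / 3)` of them violate `H ^ 3 < t rad`.
(3) For every function `ψ` tending to infinity and every choice of `E = E(X)` the proportion of those
which violate `H ^ 3 < ψ(X) rad` tends to `0`. -/
theorem result : ∀ (K : Type) [Field K] [NumberField K], Module.finrank ℚ K = 2 →
    (∃ s : K, s ^ 2 = 5) →
    (∀ X : ℝ, 1 ≤ X → ∃ E : Finset (𝓞 K × 𝓞 K × 𝓞 K), Reps X E) ∧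
    (∃ c₁ c₂ X₀ : ℝ, 0 < c₁ ∧ ∀ X : ℝ, X₀ ≤ X → ∀ E : Finset (𝓞 K × 𝓞 K × 𝓞 K), Reps X E →
      c₁ * X ^ (2 / 3 : ℝ) ≤ (E.card : ℝ) ∧ (E.card : ℝ) ≤ c₂ * X ^ (2 / 3 : ℝ)) ∧
    (∀ c : ℝ, 0 ≤ c → c < 1 / 3 → ∃ C ν : ℝ, 0 < ν ∧ ∀ X t : ℝ, 1 ≤ X → 1 ≤ t →
      ∀ E : Finset (𝓞 K × 𝓞 K × 𝓞 K), Reps X E →
        ((Exceptions t E).ncard : ℝ) ≤ C * (t ^ (-c) + X ^ (-ν)) * X ^ (2 / 3 : ℝ)) ∧
    (∀ ψ : ℝ → ℝ, Tendsto ψ atTop atTop → ∀ E : ℝ → Finset (𝓞 K × 𝓞 K × 𝓞 K),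
      (∀ X : ℝ, 1 ≤ X → Reps X (E X)) →
      Tendsto (fun X : ℝ => ((Exceptions (ψ X) (E X)).ncard : ℝ) / ((E X).card : ℝ))
        atTop (𝓝 0)) := by
  intro K _ _ hK h5
  obtain ⟨c₂, hc₂, hup⟩ := upper K
  obtain ⟨c₁, X₀, hc₁, hl⟩ := lower hK h5
  have hlow : ∀ X : ℝ, X₀ ≤ X → ∀ E : Finset (𝓞 K × 𝓞 K × 𝓞 K), Reps X E →
      c₁ * X ^ (2 / 3 : ℝ) ≤ (E.card : ℝ) := by
    intro X hX E hE
    obtain ⟨F, h1, h2, h3⟩ := hl X hX
    refine h3.trans ?_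
    exact_mod_cast card_le_reps hE h1 h2
  have htail : ∀ c : ℝ, 0 ≤ c → c < 1 / 3 → ∃ C ν : ℝ, 0 < C ∧ 0 < ν ∧ ∀ X t : ℝ, 1 ≤ X → 1 ≤ t →
      ∀ E : Finset (𝓞 K × 𝓞 K × 𝓞 K), Reps X E →
        ((Exceptions t E).ncard : ℝ) ≤ C * (t ^ (-c) + X ^ (-ν)) * X ^ (2 / 3 : ℝ) := by
    intro c hc0 hc1
    obtain ⟨C, ν, hC, hν, h⟩ := tail K c hc0 hc1
    refine ⟨C, ν, hC, hν, fun X t hX ht E hE => ?_⟩
    have e1 : (Exceptions t E).ncard = (E.filter fun s => t * rad s ≤ height s ^ 3).card := by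
      rw [← Set.ncard_coe_finset]
      congr 1
      ext s
      unfold Exceptions
      rw [Set.mem_ofPred_eq, Finset.mem_coe, Finset.mem_filter]
    rw [e1]
    refine h X t hX ht _ ?_ ?_
    · intro a ha b hb u hu
      rw [Finset.mem_filter] at ha hb
      exact hE.ineq a ha.1 b hb.1 u hu
    · intro s hs
      rw [Finset.mem_filter] at hs
      exact ⟨(hE.mem s hs.1).1, (hE.mem s hs.1).2, hs.2⟩
  refine ⟨fun X hX => exists_reps K hX, ⟨c₁, c₂, max 1 X₀, hc₁, fun X hX E hE =>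
    ⟨hlow X ((le_max_right _ _).trans hX) E hE,
      hup X ((le_max_left _ _).trans hX) E hE.ineq hE.mem⟩⟩, ?_, ?_⟩
  · intro c hc0 hc1
    obtain ⟨C, ν, _, hν, h⟩ := htail c hc0 hc1
    exact ⟨C, ν, hν, h⟩
  · intro ψ hψ E hE
    obtain ⟨C', ν', hC', hν', h⟩ := htail (1 / 4) (by norm_num) (by norm_num)
    have hlim : Tendsto (fun X : ℝ => C' / c₁ * ((ψ X) ^ (-(1 / 4 : ℝ)) + X ^ (-ν')))
        atTop (𝓝 0) := by
      have h1 : Tendsto (fun X : ℝ => (ψ X) ^ (-(1 / 4 : ℝ))) atTop (𝓝 0) :=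
        (tendsto_rpow_neg_atTop (by norm_num : (0 : ℝ) < 1 / 4)).comp hψ
      have h2 : Tendsto (fun X : ℝ => X ^ (-ν')) atTop (𝓝 0) :=
        tendsto_rpow_neg_atTop hν'
      have h3 := (h1.add h2).const_mul (C' / c₁)
      rwa [add_zero, mul_zero] at h3
    refine squeeze_zero' (Eventually.of_forall fun X => by positivity) ?_ hlim
    filter_upwards [eventually_ge_atTop (max 1 X₀), hψ.eventually_ge_atTop 1] with X hX hψX
    have hX1 : 1 ≤ X := (le_max_left _ _).trans hX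
    have hX0 : 0 < X := by linarith
    have hp : 0 < X ^ (2 / 3 : ℝ) := Real.rpow_pos_of_pos hX0 _
    have g1 := hlow X ((le_max_right _ _).trans hX) (E X) (hE X hX1)
    have g2 := h X (ψ X) hX1 hψX (E X) (hE X hX1)
    have g3 : 0 < c₁ * X ^ (2 / 3 : ℝ) := by positivity
    have g4 : 0 < ((E X).card : ℝ) := g3.trans_le g1
    rw [div_le_iff₀ g4]
    refine g2.trans ?_
    have g5 : 0 ≤ C' / c₁ * ((ψ X) ^ (-(1 / 4 : ℝ)) + X ^ (-ν')) := by
      have : 0 < ψ X := by linarith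
      positivity
    have g6 := mul_le_mul_of_nonneg_left g1 g5
    refine le_trans (le_of_eq ?_) g6
    field_simp

end Pool.Agent.Results.MP_2a5a28_nt.SharpCount
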