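import Pool.Agent.Results.MP_2a5a28_nt.WindowsWithoutExceptions
import Pool.Agent.R482.ST.Star

/-!
# The abc conjecture over the integers of `ℚ(√5)` without exceptions near powers, orbits and other sequences

Let `f_n`, `n = 0, 1, 2, …`, be positive functions on `(a, ∞)`, `a ≥ 0`, such that `f_n(t) / t` is nondecreasing, and such
that the sequence `f_n(t)` has exponent of convergence at most `τ` for each `t > a`: for instance `f_n(t) = t ^ (v_n)` for
exponents `v_n ≥ 1` (`τ = 0`; all powers, the powers `t ^ (3 ^ n)` of Mills, …), the orbits `f_n(t) = g (g (⋯ g (t)))` of any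
map `g` with `g(t) > t` and `g(t) / t` nondecreasing (`τ = 0`; for instance of `t² + c`), and `f_n(t) = v_n t`.
Let `θ < 1`. For all `α > a` outside a set of Hausdorff dimension at most `(20 / 37 + τ) / (1 - θ)` and all `κ` and `c`, for
all but finitely many `n`, ALL coprime triples `a + b + c = 0`, `abc ≠ 0`, of integers of `ℚ(√5)` whose height `H` satisfies
`|H - f_n(α)| ≤ c f_n(α) ^ θ` have a radical larger than `κ H`.
-/

set_option autoImplicit false

namespace Pool.Agent.Results.MP_2a5a28_nt.StarshapedWindows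

open NumberField IsDedekindDomain
open ExceptionalSet (Triple height rad)
open WindowsWithoutExceptions (Exc count)

/-- the functions `f n` are positive on `(a, ∞)`, `a ≥ 0`, and `f n x / x` is nondecreasing there -/
def Starshaped (a : ℝ) (f : ℕ → ℝ → ℝ) : Prop :=
  0 ≤ a ∧ ∀ n : ℕ, ∀ x y : ℝ, a < x → x ≤ y → 0 < f n x ∧ f n x / x ≤ f n y / y

/-- for each `x > a` the exponent of convergence of the sequence `f n x` is at most `τ` -/
def ExpLe (a : ℝ) (f : ℕ → ℝ → ℝ) (τ : ℝ) : Prop :=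
  ∀ x : ℝ, a < x → ∀ t : ℝ, τ < t → Summable (fun n : ℕ => (f n x) ^ (-t))

/-- **Theorem.** Let `K = ℚ(√5)`, `f` starshaped functions on `(a, ∞)` of exponent of convergence at most `τ ≥ 0` and `θ < 1`.
There is a set `E` of Hausdorff dimension at most `(20 / 37 + τ) / (1 - θ)` such that for each `α > a` outside `E` and all `κ`
and `c`, for all but finitely many `n`, ALL triples `a + b + c = 0` in lowest terms with `abc ≠ 0` whose height `H` satisfies
`|H - f_n(α)| ≤ c f_n(α) ^ θ` have a radical larger than `κ H`. The functions `v_n x`, `v_n > 0`, are starshaped on `(0, ∞)`, of exponent `τ` if `v` has exponent of convergence at most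
`τ`; the functions `x ^ (v_n)`, `v_n ≥ 1`, are starshaped on `(1, ∞)`, of exponent `0` if the sums of `exp (-t v_n)` converge
for `t > 0`; and the iterates of a map `g` with `g(x) > x` for `x > a` and `g(x) / x` nondecreasing are starshaped on
`(a, ∞)`, of exponent `0`. -/
theorem result :
    (∀ (K : Type) [Field K] [NumberField K], Module.finrank ℚ K = 2 → (∃ s : K, s ^ 2 = 5) →
      ∀ (a : ℝ) (f : ℕ → ℝ → ℝ) (τ θ : ℝ), Starshaped a f → 0 ≤ τ → ExpLe a f τ → θ < 1 →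
      ∃ E : Set ℝ, dimH E ≤ ENNReal.ofReal ((20 / 37 + τ) / (1 - θ)) ∧
        ∀ α : ℝ, a < α → α ∉ E → ∀ κ c : ℝ, ∃ n₀ : ℕ, ∀ n : ℕ, n₀ ≤ n → ∀ t : 𝓞 K × 𝓞 K × 𝓞 K, Triple t →
          |height t - f n α| ≤ c * (f n α) ^ θ → κ * height t < rad t) ∧
    (∀ (v : ℕ → ℝ) (τ : ℝ), (∀ n, 0 < v n) → (∀ t : ℝ, τ < t → Summable (fun n : ℕ => (v n) ^ (-t))) →
      Starshaped 0 (fun n x => v n * x) ∧ ExpLe 0 (fun n x => v n * x) τ) ∧
    (∀ v : ℕ → ℝ, (∀ n, 1 ≤ v n) → (∀ t : ℝ, 0 < t → Summable fun n : ℕ => Real.exp (-(t * v n))) →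
      Starshaped 1 (fun n x => x ^ (v n)) ∧ ExpLe 1 (fun n x => x ^ (v n)) 0) ∧
    (∀ (a : ℝ) (g : ℝ → ℝ), 0 ≤ a → (∀ x y : ℝ, a < x → x ≤ y → g x / x ≤ g y / y) → (∀ x : ℝ, a < x → x < g x) →
      Starshaped a (fun n x => g^[n] x) ∧ ExpLe a (fun n x => g^[n] x) 0) := by
  refine ⟨fun K _ _ hd h5 a f τ θ hf hτ hE hθ1 => ?_, Pool.Agent.R482.ST.ex_mul, Pool.Agent.R482.ST.ex_pow,
    Pool.Agent.R482.ST.ex_orbit⟩
  have hall : ∀ k : ℕ, ∃ E : Set ℝ, dimH E ≤ ENNReal.ofReal ((20 / 37 + τ) / (1 - θ)) ∧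
      ∀ α : ℝ, a < α → α ∉ E → ∀ c : ℝ, ∃ n0 : ℕ, ∀ n : ℕ, n0 ≤ n → ∀ x ∈ Exc K (k : ℝ),
        c * (f n α) ^ θ < |x - f n α| := fun k =>
    Pool.Agent.R482.ST.windows (Exc K (k : ℝ)) (fun x => x) hf hτ hE (s := 20 / 37) (by norm_num) hθ1
      (fun ε hε => count hd h5 k ε hε)
  choose E hE1 hE2 using hall
  refine ⟨⋃ k, E k, ?_, fun α hα hαE κ c => ?_⟩
  · rw [dimH_iUnion]
    exact iSup_le hE1
  · obtain ⟨k, hk⟩ := exists_nat_ge κ
    obtain ⟨n₀, hn⟩ := hE2 k α hα (fun h => hαE (Set.mem_iUnion.2 ⟨k, h⟩)) c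
    refine ⟨n₀, fun n hn1 t ht hw => ?_⟩
    have hpos : 0 ≤ height t := by
      unfold height
      exact Finset.prod_nonneg (fun φ _ => (norm_nonneg _).trans (le_max_left _ _))
    by_contra hcon
    push Not at hcon
    refine absurd (hn n hn1 (height t) ⟨t, ht, rfl, hcon.trans ?_⟩) (not_lt.2 hw)
    exact mul_le_mul_of_nonneg_right hk hpos

end Pool.Agent.Results.MP_2a5a28_nt.StarshapedWindows
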