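import Pool.Agent.Results.MP_2a5a28_nt.ExceptionalSet
import Pool.Agent.R559.NP.Near

/-!
# The abc inequality over the integers of `ℚ(√5)` for the triples near a given point

Let `φ` be any map from the triples `(a, b, c)` of integers of `K = ℚ(√5)`, invariant under multiplication with units, to a
metric space `X`, for example `a / c` in `ℝ²` (the two embeddings) or in a completion of `K`.  For all `ξ ∈ X` outside a set
of Hausdorff dimension at most `20 / (37 τ)` and all `A` there is `C` such that ALL triples `a + b + c = 0` in lowest terms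
with `abc ≠ 0` and `dist (φ (a, b, c)) ξ ≤ A H(a, b, c) ^ (-τ)` satisfy `H(a, b, c) ≤ C rad (a, b, c)`; up to units only
finitely many of them satisfy `rad (a, b, c) ≤ κ H(a, b, c)`, for each `κ`.
-/

set_option autoImplicit false

namespace Pool.Agent.Results.MP_2a5a28_nt.TriplesNearAPoint

open NumberField IsDedekindDomain Filter Topology MeasureTheory
open ExceptionalSet (Triple height rad)

variable {K : Type} [Field K] [NumberField K]

/-- `s` is the multiple of `t` by a unit -/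
def UnitMultiple (t s : 𝓞 K × 𝓞 K × 𝓞 K) : Prop :=
  ∃ u : (𝓞 K)ˣ, s = (u * t.1, u * t.2.1, u * t.2.2)

omit [NumberField K] in
lemma um_refl (t : 𝓞 K × 𝓞 K × 𝓞 K) : UnitMultiple t t := ⟨1, by simp⟩

omit [NumberField K] in
lemma um_symm {t s : 𝓞 K × 𝓞 K × 𝓞 K} (h : UnitMultiple t s) : UnitMultiple s t := by
  obtain ⟨u, rfl⟩ := h
  exact ⟨u⁻¹, by simp⟩

omit [NumberField K] in
lemma um_trans {t s r : 𝓞 K × 𝓞 K × 𝓞 K} (h : UnitMultiple t s) (h' : UnitMultiple s r) :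
    UnitMultiple t r := by
  obtain ⟨u, rfl⟩ := h
  obtain ⟨v, rfl⟩ := h'
  exact ⟨v * u, by simp [mul_assoc]⟩

lemma prod_unit (u : (𝓞 K)ˣ) : ∏ φ : K →+* ℂ, ‖φ ((u : 𝓞 K) : K)‖ = 1 := by
  have h1 := Pool.Agent.W16.TR.prod_emb (K := K) (fun w => w ((u : 𝓞 K) : K))
  have h2 : ∀ φ : K →+* ℂ, (InfinitePlace.mk φ) ((u : 𝓞 K) : K) = ‖φ ((u : 𝓞 K) : K)‖ :=
    fun φ => rfl
  simp only [h2] at h1
  rw [h1, InfinitePlace.prod_eq_abs_norm]
  have h3 := NumberField.Units.norm K u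
  exact_mod_cast h3

lemma um_height {t s : 𝓞 K × 𝓞 K × 𝓞 K} (h : UnitMultiple t s) : height s = height t := by
  obtain ⟨u, rfl⟩ := h
  unfold height
  have e : ∀ φ : K →+* ℂ, max ‖φ (((u : 𝓞 K) * t.1 : 𝓞 K) : K)‖
      (max ‖φ (((u : 𝓞 K) * t.2.1 : 𝓞 K) : K)‖ ‖φ (((u : 𝓞 K) * t.2.2 : 𝓞 K) : K)‖) =
      ‖φ ((u : 𝓞 K) : K)‖ * max ‖φ t.1‖ (max ‖φ t.2.1‖ ‖φ t.2.2‖) := by
    intro φ
    have h0 : 0 ≤ ‖φ ((u : 𝓞 K) : K)‖ := norm_nonneg _
    rw [mul_max_of_nonneg _ _ h0, mul_max_of_nonneg _ _ h0]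
    simp only [map_mul, norm_mul]
  simp only [e]
  rw [Finset.prod_mul_distrib, prod_unit, one_mul]

lemma um_rad {t s : 𝓞 K × 𝓞 K × 𝓞 K} (h : UnitMultiple t s) : rad s = rad t := by
  obtain ⟨u, rfl⟩ := h
  unfold rad
  have e : (u : 𝓞 K) * t.1 * ((u : 𝓞 K) * t.2.1) * ((u : 𝓞 K) * t.2.2) =
      ((u ^ 3 : (𝓞 K)ˣ) : 𝓞 K) * (t.1 * t.2.1 * t.2.2) := by
    push_cast
    ring
  simp only [e, Ideal.unit_mul_mem_iff_mem _ (u ^ 3).isUnit]

omit [NumberField K] in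
lemma um_triple {t s : 𝓞 K × 𝓞 K × 𝓞 K} (h : UnitMultiple t s) (ht : Triple t) : Triple s := by
  obtain ⟨u, rfl⟩ := h
  refine ⟨?_, ?_, ?_⟩
  · have := ht.sum
    simp only
    rw [← mul_add, ← mul_add, this, mul_zero]
  · have e : (u : 𝓞 K) * t.1 * ((u : 𝓞 K) * t.2.1) * ((u : 𝓞 K) * t.2.2) =
        ((u ^ 3 : (𝓞 K)ˣ) : 𝓞 K) * (t.1 * t.2.1 * t.2.2) := by
      push_cast
      ring
    simp only
    rw [e]
    exact mul_ne_zero (u ^ 3).ne_zero ht.ne
  · rw [eq_top_iff, ← ht.cop, Ideal.span_le]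
    intro x hx
    simp only [Set.mem_insert_iff, Set.mem_singleton_iff] at hx
    have key : ∀ y : 𝓞 K, (u : 𝓞 K) * y ∈ Ideal.span
        ({(u : 𝓞 K) * t.1, (u : 𝓞 K) * t.2.1, (u : 𝓞 K) * t.2.2} : Set (𝓞 K)) →
        y ∈ Ideal.span ({(u : 𝓞 K) * t.1, (u : 𝓞 K) * t.2.1, (u : 𝓞 K) * t.2.2} : Set (𝓞 K)) :=
      fun y hy => (Ideal.unit_mul_mem_iff_mem _ u.isUnit).1 hy
    rcases hx with rfl | rfl | rfl
    · exact key _ (Ideal.subset_span (by simp))
    · exact key _ (Ideal.subset_span (by simp))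
    · exact key _ (Ideal.subset_span (by simp))

/-- the classes up to units -/
def st (K : Type) [Field K] [NumberField K] : Setoid (𝓞 K × 𝓞 K × 𝓞 K) where
  r := UnitMultiple
  iseqv := ⟨um_refl, um_symm, um_trans⟩

/-- a representative of the class -/
noncomputable def rep (t : 𝓞 K × 𝓞 K × 𝓞 K) : 𝓞 K × 𝓞 K × 𝓞 K := (Quotient.mk (st K) t).out

lemma rep_um (t : 𝓞 K × 𝓞 K × 𝓞 K) : UnitMultiple (rep t) t := Quotient.mk_out (s := st K) t

lemma rep_eq {t s : 𝓞 K × 𝓞 K × 𝓞 K} (h : UnitMultiple t s) : rep t = rep s := by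
  unfold rep
  congr 1
  exact Quotient.sound (s := st K) h

lemma rep_rep (t : 𝓞 K × 𝓞 K × 𝓞 K) : rep (rep t) = rep t := rep_eq (rep_um t)

lemma rad_pos {t : 𝓞 K × 𝓞 K × 𝓞 K} (ht : Triple t) : 0 < rad t := Pool.Agent.W16.TR.RR_pos ht.ne

lemma count (K : Type) [Field K] [NumberField K] (h2 : Module.finrank ℚ K = 2) (h5 : ∃ s : K, s ^ 2 = 5)
    (κ ε : ℝ) (hε : 0 < ε) : ∃ C : ℝ, ∀ B : ℝ, 1 ≤ B →
      {t : 𝓞 K × 𝓞 K × 𝓞 K | (rep t = t ∧ Triple t ∧ rad t ≤ κ * height t) ∧ max (height t) 1 ≤ B}.Finite ∧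
      (({t : 𝓞 K × 𝓞 K × 𝓞 K | (rep t = t ∧ Triple t ∧ rad t ≤ κ * height t) ∧
        max (height t) 1 ≤ B}.ncard : ℕ) : ℝ) ≤ C * B ^ (20 / 37 + ε : ℝ) := by
  classical
  obtain ⟨C, hC⟩ := ExceptionalSet.result K h2 h5 κ ε hε
  refine ⟨C, fun B hB => ?_⟩
  set Q : Set (𝓞 K × 𝓞 K × 𝓞 K) :=
    {t | (rep t = t ∧ Triple t ∧ rad t ≤ κ * height t) ∧ max (height t) 1 ≤ B} with hQ
  have key : ∀ F : Finset (𝓞 K × 𝓞 K × 𝓞 K), (∀ t ∈ F, t ∈ Q) → (F.card : ℝ) ≤ C * B ^ (20 / 37 + ε : ℝ) := by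
    intro F hF
    refine hC B hB F (fun t ht => ?_) (fun t ht s hs u hu => ?_)
    · obtain ⟨⟨-, h3, h4⟩, h6⟩ := hF t ht
      exact ⟨h3, (le_max_left _ _).trans h6, h4⟩
    · rw [← (hF t ht).1.1, ← (hF s hs).1.1]
      exact (rep_eq ⟨u, hu⟩).symm
  have hfin : Q.Finite := by
    by_contra hinf
    obtain ⟨F, hF1, hF2⟩ := (show Q.Infinite from hinf).exists_subset_card_eq
      (⌊C * B ^ (20 / 37 + ε : ℝ)⌋₊ + 1)
    have h2 := key F (fun x hx => hF1 hx)
    rw [hF2] at h2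
    push_cast at h2
    have h3 := Nat.lt_floor_add_one (C * B ^ (20 / 37 + ε : ℝ))
    linarith
  refine ⟨hfin, ?_⟩
  rw [Set.ncard_eq_toFinset_card _ hfin]
  exact key hfin.toFinset (fun x hx => by
    rw [Set.Finite.mem_toFinset] at hx
    exact hx)

/-- **Theorem.** Let `K = ℚ(√5)`, let `φ` be a map from the triples of integers of `K` to a metric space `X` which takes
the same value on triples differing by a unit, and `τ > 0`.
(1) There is `E ⊆ X` of Hausdorff dimension at most `20 / (37 τ)` such that for all `ξ ∈ X` outside `E` and all `A`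
there is `C` such that all triples `a + b + c = 0` in lowest terms, `abc ≠ 0`, with
`dist (φ (a, b, c)) ξ ≤ A H(a, b, c) ^ (-τ)` satisfy `H(a, b, c) ≤ C rad (a, b, c)`; moreover for every `κ` there is a finite
set of triples such that all those triples with `rad (a, b, c) ≤ κ H(a, b, c)` are multiples of its members by units.
(2) If `μ` is a measure on `X` for which the closed balls of radius `r` have measure at most `C₀ r ^ m`, and
`20 / 37 < τ m`, the same holds for `μ`-almost all `ξ`. -/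
theorem result (K : Type) [Field K] [NumberField K] (h2 : Module.finrank ℚ K = 2) (h5 : ∃ s : K, s ^ 2 = 5)
    (X : Type) [MetricSpace X] (φ : 𝓞 K × 𝓞 K × 𝓞 K → X) (hφ : ∀ t s, UnitMultiple t s → φ t = φ s)
    (τ : ℝ) (hτ : 0 < τ) :
    (∃ E : Set X, dimH E ≤ ENNReal.ofReal (20 / 37 / τ) ∧ ∀ ξ : X, ξ ∉ E → ∀ A : ℝ,
      (∃ C : ℝ, ∀ t, Triple t → dist (φ t) ξ ≤ A * height t ^ (-τ) → height t ≤ C * rad t) ∧
      (∀ κ : ℝ, ∃ F : Finset (𝓞 K × 𝓞 K × 𝓞 K), ∀ t, Triple t → dist (φ t) ξ ≤ A * height t ^ (-τ) →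
        rad t ≤ κ * height t → ∃ s ∈ F, UnitMultiple s t)) ∧
    (∀ [MeasurableSpace X] (μ : Measure X) (C₀ m : ℝ),
      (∀ (x : X) (r : ℝ), 0 < r → μ (Metric.closedBall x r) ≤ ENNReal.ofReal (C₀ * r ^ m)) →
      20 / 37 < τ * m → ∀ᵐ ξ ∂μ, ∀ A : ℝ,
      (∃ C : ℝ, ∀ t, Triple t → dist (φ t) ξ ≤ A * height t ^ (-τ) → height t ≤ C * rad t) ∧
      (∀ κ : ℝ, ∃ F : Finset (𝓞 K × 𝓞 K × 𝓞 K), ∀ t, Triple t → dist (φ t) ξ ≤ A * height t ^ (-τ) →
        rad t ≤ κ * height t → ∃ s ∈ F, UnitMultiple s t)) := by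
  classical
  have hcnt : Countable (𝓞 K) := by
    have hK : Countable K := (Module.finBasis ℚ K).equivFun.injective.countable
    exact (RingOfIntegers.coe_injective (K := K)).countable
  -- heights are at least one
  have hH : ∀ t : 𝓞 K × 𝓞 K × 𝓞 K, Triple t → 1 ≤ height t := by
    intro t ht
    have h0 : t.1 ≠ 0 := fun h => ht.ne (by rw [h]; simp)
    have h3 : (1 : ℝ) ≤ ∏ φ : K →+* ℂ, ‖φ (t.1 : K)‖ := by
      have h4 := Pool.Agent.W16.TR.prod_emb (K := K) (fun w => w (t.1 : K))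
      have h6 : ∀ φ : K →+* ℂ, (InfinitePlace.mk φ) (t.1 : K) = ‖φ (t.1 : K)‖ := fun φ => rfl
      simp only [h6] at h4
      rw [h4, InfinitePlace.prod_eq_abs_norm, ← Algebra.coe_norm_int]
      have h7 : Algebra.norm ℤ t.1 ≠ 0 := by
        rw [Ne, Algebra.norm_eq_zero_iff]
        exact h0
      have h8 : (1 : ℤ) ≤ |Algebra.norm ℤ t.1| := Int.one_le_abs h7
      exact_mod_cast h8
    refine h3.trans ?_
    exact Finset.prod_le_prod (fun _ _ => norm_nonneg _) fun _ _ => le_max_left _ _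
  -- the conclusion from the finiteness
  have concl : ∀ ξ : X, (∀ (k : ℕ) (A : ℝ), {t : 𝓞 K × 𝓞 K × 𝓞 K |
      dist (φ t) ξ ≤ A * max (height t) 1 ^ (-τ) ∧ (rep t = t ∧ Triple t ∧ rad t ≤ (k : ℝ) * height t)}.Finite) →
      ∀ A : ℝ, (∃ C : ℝ, ∀ t, Triple t → dist (φ t) ξ ≤ A * height t ^ (-τ) → height t ≤ C * rad t) ∧
      (∀ κ : ℝ, ∃ F : Finset (𝓞 K × 𝓞 K × 𝓞 K), ∀ t, Triple t → dist (φ t) ξ ≤ A * height t ^ (-τ) →
        rad t ≤ κ * height t → ∃ s ∈ F, UnitMultiple s t) := by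
    intro ξ h A
    have hmem : ∀ (k : ℕ) (t : 𝓞 K × 𝓞 K × 𝓞 K), Triple t → dist (φ t) ξ ≤ A * height t ^ (-τ) →
        rad t ≤ (k : ℝ) * height t → rep t ∈ (h k A).toFinset := by
      intro k t ht hd hr
      rw [Set.Finite.mem_toFinset]
      have hu := rep_um t
      have e1 := um_height hu
      have e2 := um_rad hu
      have h3 := um_triple (um_symm hu) ht
      refine ⟨?_, rep_rep t, h3, ?_⟩
      · rw [hφ _ _ hu, max_eq_left (hH _ h3), ← e1]
        exact hd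
      · rw [← e1, ← e2]
        exact hr
    constructor
    · obtain ⟨M, hM⟩ := ((h 1 A).toFinset.finite_toSet.image fun t => height t / rad t).bddAbove
      refine ⟨max M 1, fun t ht hd => ?_⟩
      have hr0 := rad_pos ht
      rcases le_or_gt (rad t) (height t) with h3 | h3
      · have h4 := hmem 1 t ht hd (by simpa using h3)
        have h6 : height (rep t) / rad (rep t) ≤ M := hM ⟨rep t, by simpa using h4, rfl⟩
        have e1 := um_height (rep_um t)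
        have e2 := um_rad (rep_um t)
        rw [← e1, ← e2, div_le_iff₀ hr0] at h6
        exact h6.trans (mul_le_mul_of_nonneg_right (le_max_left _ _) hr0.le)
      · calc height t ≤ 1 * rad t := by linarith
          _ ≤ max M 1 * rad t := mul_le_mul_of_nonneg_right (le_max_right _ _) hr0.le
    · intro κ
      obtain ⟨k, hk⟩ := exists_nat_ge κ
      refine ⟨(h k A).toFinset, fun t ht hd hr => ⟨rep t, hmem k t ht hd (hr.trans ?_), rep_um t⟩⟩
      exact mul_le_mul_of_nonneg_right hk (by linarith [hH t ht])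
  constructor
  · have key := fun k : ℕ => Pool.Agent.R559.NP.near_dim (T := 𝓞 K × 𝓞 K × 𝓞 K) (X := X)
      (H := fun t => max (height t) 1) (fun t => le_max_right _ _)
      (Bad := fun t => rep t = t ∧ Triple t ∧ rad t ≤ (k : ℝ) * height t) (s := 20 / 37) (by norm_num) hτ
      (fun ε hε => count K h2 h5 (k : ℝ) ε hε) φ
    choose E hE hE' using key
    refine ⟨⋃ k, E k, ?_, fun ξ hξ => concl ξ fun k A => hE' k ξ (fun h => hξ (Set.mem_iUnion.2 ⟨k, h⟩)) A⟩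
    rw [dimH_iUnion]
    exact iSup_le hE
  · intro _ μ C₀ m hμ hm
    have key := fun k : ℕ => Pool.Agent.R559.NP.near_ae (T := 𝓞 K × 𝓞 K × 𝓞 K) (X := X) μ hμ
      (H := fun t => max (height t) 1) (fun t => le_max_right _ _)
      (Bad := fun t => rep t = t ∧ Triple t ∧ rad t ≤ (k : ℝ) * height t) (s := 20 / 37) (by norm_num) hm
      (fun ε hε => count K h2 h5 (k : ℝ) ε hε) φ
    filter_upwards [ae_all_iff.2 key] with ξ hξ
    exact concl ξ hξ

end Pool.Agent.Results.MP_2a5a28_nt.TriplesNearAPoint
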